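import Pool.Agent.H84.NT.Targets

/-!
# Near ties (MP_57ddd5_pr): abstract anti-concentration
-/

open MeasureTheory ProbabilityTheory
open scoped ENNReal

namespace Pool.Agent.H29.NT

open Pool.Agent.H99.NS Pool.Agent.H22.LPP Pool.Agent.H95.INS Pool.Agent.H84.NT

theorem measurable_of_depOn (h_FIM : T_FIM) {S : Finset Site} {Psi : Env → ℝ}
    (h : DepOn (S : Set Site) Psi) : Measurable Psi := by
  intro B _
  exact h_FIM S (fun ω => Psi ω ∈ B) S.finite_toSet
    (fun ω ω' hw => by have := h ω ω' hw; simp only [this])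

theorem pf_ABS (h_CVB : T_CVB) (h_VSU : T_VSU) (h_FIM : T_FIM) : T_ABS := by
  intro q S I H F R D p Psi hp hS hM hb hI hD
  have hHm : ∀ i ∈ I, MeasurableSet (H i) := fun i hi =>
    h_FIM S (fun ω => ω ∈ H i) S.finite_toSet (hI i hi).1
  have hV := h_VSU q I H R D Psi hHm (fun i hi => (hI i hi).2.1) hD
    (measurable_of_depOn h_FIM hS) hb
  have h1 : ∀ i ∈ I, p / 2 * (PE q).real (F i) ≤
      ∫ ω, (H i).indicator (fun _ => (1:ℝ)) ω * Psi ω ∂(PE q) -
        (PE q).real (H i) * ∫ ω, Psi ω ∂(PE q) := by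
    intro i hi
    obtain ⟨a1, a2, a3, a4, a5, a6, a7⟩ := hI i hi
    have := h_CVB q S (R i) Psi (H i) (F i) hS hM hb a1 a2 a3 a4 a5 a6
    have h2 : p / 2 * (PE q).real (F i) ≤ (PE q).real (H i) / 2 * (PE q).real (F i) :=
      mul_le_mul_of_nonneg_right (by linarith) measureReal_nonneg
    linarith
  have h3 : p / 2 * ∑ i ∈ I, (PE q).real (F i) ≤ √(D * I.card) := by
    rw [Finset.mul_sum]
    exact (Finset.sum_le_sum h1).trans hV
  have h4 : ∑ i ∈ I, (PE q).real (F i) = 2 / p * (p / 2 * ∑ i ∈ I, (PE q).real (F i)) := by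
    field_simp
  rw [h4]
  exact mul_le_mul_of_nonneg_left h3 (by positivity)

end Pool.Agent.H29.NT
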