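import Pool.Agent.H29.NT.ABS

/-!
# Near ties (MP_57ddd5_pr): the anti-concentration estimate
-/

open MeasureTheory ProbabilityTheory
open scoped ENNReal

namespace Pool.Agent.H29.NT

open Pool.Agent.H99.NS Pool.Agent.H22.LPP Pool.Agent.H95.INS Pool.Agent.H84.NT

/-! ### Dependence of paths on the weights of `dom` -/

theorem wt_dom {ω ω' : Env} {o e : Site} {γ : ℤ → ℤ} (hγ : Conn o e γ)
    (h : ∀ x ∈ dom o e, ω x = ω' x) {s t : ℤ} (hs : o.1 ≤ s) (ht : t ≤ e.1) :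
    wt ω s t γ = wt ω' s t γ := by
  apply wt_congr
  intro r hr1 hr2
  exact h _ ⟨by simp only; omega, (hγ.left (by omega)).reach (by simp only; omega),
    (hγ.right (by omega)).reach (by simp only; omega)⟩

theorem geod_congr {ω ω' : Env} {o e : Site} (h : ∀ x ∈ dom o e, ω x = ω' x) (γ : ℤ → ℤ) :
    Geod ω o e γ ↔ Geod ω' o e γ := by
  unfold Geod
  constructor
  · rintro ⟨h1, h2⟩
    exact ⟨h1, by rw [← wt_dom h1 h le_rfl le_rfl, h2, T_congr h]⟩
  · rintro ⟨h1, h2⟩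
    exact ⟨h1, by rw [wt_dom h1 h le_rfl le_rfl, h2, T_congr h]⟩

theorem lam_congr {ω ω' : Env} {o e : Site} (h : ∀ x ∈ dom o e, ω x = ω' x) :
    Lam ω o e = Lam ω' o e := by
  funext r
  unfold Lam
  congr 1
  ext y
  simp only [Set.mem_ofPred_eq]
  constructor
  · rintro ⟨γ, h1, h2⟩; exact ⟨γ, (geod_congr h γ).1 h1, h2⟩
  · rintro ⟨γ, h1, h2⟩; exact ⟨γ, (geod_congr h γ).2 h1, h2⟩

theorem splice_agree {A B : Set Site} {ω ω' out : Env} (h : ∀ x ∈ A, ω x = ω' x) :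
    ∀ x ∈ A, splice B ω out x = splice B ω' out x := by
  intro x hx
  by_cases hB : x ∈ B
  · rw [splice_of_mem _ _ hB, splice_of_mem _ _ hB, h x hx]
  · rw [splice_of_not_mem _ _ hB, splice_of_not_mem _ _ hB]

theorem splice_mono {B : Set Site} {ω ω' out : Env} (h : ω ≤ ω') :
    splice B ω out ≤ splice B ω' out := by
  intro x
  by_cases hB : x ∈ B
  · rw [splice_of_mem _ _ hB, splice_of_mem _ _ hB]; exact h x
  · rw [splice_of_not_mem _ _ hB, splice_of_not_mem _ _ hB]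

/-- The event `F` for the spliced environment. -/
def QF (q K1 : ℝ) (Cd : ℤ) (k : ℕ) (s x : ℤ) (o e : Site) (b0 g : ℝ) (ω : Env) : Prop :=
  b0 ≤ T ω o e ∧ T ω o e ≤ b0 + g ∧ x ≤ Lam ω o e s ∧ Lam ω o e s ≤ x + 16 ^ k ∧
    Fine q K1 Cd k ω s (Lam ω o e)

theorem QF_congr (h_LAM : B_LAM) {q K1 : ℝ} {Cd : ℤ} {k : ℕ} {s x : ℤ} {o e : Site} {b0 g : ℝ}
    (hoe : Reach o e) (hs : o.1 ≤ s) (hse : s + 64 ^ k ≤ e.1) {ω ω' : Env}
    (h : ∀ x ∈ dom o e, ω x = ω' x) (hQ : QF q K1 Cd k s x o e b0 g ω) :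
    QF q K1 Cd k s x o e b0 g ω' := by
  obtain ⟨h1, h2, h3, h4, h5, h6⟩ := hQ
  rw [T_congr h] at h1 h2
  have hc := ((h_LAM ω o e hoe).1).1
  rw [wt_dom hc h hs hse] at h6
  rw [lam_congr h] at h3 h4 h5 h6
  exact ⟨h1, h2, h3, h4, h5, h6⟩

/-- Truncated linear function. -/
noncomputable def psi (b0 g : ℝ) (x : ℝ) : ℝ := max 0 (min 1 ((x - b0) / (2 * g)))

theorem psi_mono {b0 g : ℝ} (hg : 0 < g) {x y : ℝ} (h : x ≤ y) : psi b0 g x ≤ psi b0 g y := by
  unfold psi
  apply max_le_max le_rfl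
  apply min_le_min le_rfl
  apply div_le_div_of_nonneg_right _ (by positivity)
  linarith

theorem psi_bd {b0 g : ℝ} (x : ℝ) : 0 ≤ psi b0 g x ∧ psi b0 g x ≤ 1 := by
  unfold psi
  exact ⟨le_max_left _ _, max_le (by norm_num) (min_le_left _ _)⟩

theorem psi_half {b0 g : ℝ} (hg : 0 < g) {x : ℝ} (h : x ≤ b0 + g) : psi b0 g x ≤ 1 / 2 := by
  unfold psi
  apply max_le (by norm_num)
  refine (min_le_right _ _).trans ?_
  rw [div_le_iff₀ (by positivity)]
  linarith

theorem psi_one {b0 g : ℝ} (hg : 0 < g) {x : ℝ} (h : b0 + 2 * g ≤ x) : psi b0 g x = 1 := by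
  unfold psi
  rw [min_eq_left]
  · norm_num
  · rw [le_div_iff₀ (by positivity)]
    linarith

/-- Markov type counting. -/
theorem count_bound (q : ℝ) {ι : Type*} (I : Finset ι) (F : ι → Set Env)
    (hF : ∀ i ∈ I, MeasurableSet (F i)) (A : Set Env) (m : ℝ) (hm : 0 < m)
    (hA : ∀ ω ∈ A, m ≤ ∑ i ∈ I, (F i).indicator (fun _ => (1 : ℝ)) ω) :
    (PE q).real A ≤ 1 / m * ∑ i ∈ I, (PE q).real (F i) := by
  have hint : ∀ i ∈ I, Integrable ((F i).indicator (fun _ => (1 : ℝ))) (PE q) := fun i hi =>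
    (integrable_const (1 : ℝ)).indicator (hF i hi)
  have hint2 : Integrable (fun ω => ∑ i ∈ I, (F i).indicator (fun _ => (1 : ℝ)) ω) (PE q) :=
    integrable_finsetSum I hint
  have h1 := mul_meas_ge_le_integral_of_nonneg (μ := PE q)
    (f := fun ω => ∑ i ∈ I, (F i).indicator (fun _ => (1 : ℝ)) ω)
    (Filter.Eventually.of_forall fun ω => Finset.sum_nonneg fun i _ =>
      Set.indicator_nonneg (fun _ _ => by norm_num) ω) hint2 m
  rw [integral_finsetSum I hint] at h1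
  have h2 : ∑ i ∈ I, ∫ ω, (F i).indicator (fun _ => (1 : ℝ)) ω ∂(PE q) =
      ∑ i ∈ I, (PE q).real (F i) := by
    refine Finset.sum_congr rfl fun i hi => ?_
    rw [integral_indicator (hF i hi)]
    simp
  rw [h2] at h1
  have h3 : (PE q).real A ≤ (PE q).real
      {x | m ≤ (fun ω => ∑ i ∈ I, (F i).indicator (fun _ => (1 : ℝ)) ω) x} :=
    measureReal_mono (fun ω hω => hA ω hω)
  have h4 : (PE q).real A * m ≤ ∑ i ∈ I, (PE q).real (F i) := by
    nlinarith
  rw [one_div, ← div_eq_inv_mul, le_div_iff₀ hm]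
  exact h4

/-- The tube around the block with bottom level `s` and centre line `x`. -/
def RT (R : ℤ) (k : ℕ) (s x : ℤ) : Set Site := {z | z - (s + lv k, x) ∈ tube R k}

theorem mem_RT {R : ℤ} {k : ℕ} (hk : 1 ≤ k) {s x : ℤ} {z : Site} :
    z ∈ RT R k s x ↔ s < z.1 ∧ z.1 ≤ s + 64 ^ k ∧ |z.2 - x| < R * 16 ^ k := by
  have h2 := two_lv hk
  unfold RT tube
  simp only [Set.mem_ofPred_eq, Prod.fst_sub, Prod.snd_sub]
  constructor
  · rintro ⟨h3, h4, h5⟩
    exact ⟨by omega, by omega, h5⟩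
  · rintro ⟨h3, h4, h5⟩
    exact ⟨by omega, by omega, h5⟩

theorem RT_finite (h_HHD : T_HHD) (q K1 : ℝ) (Cd R : ℤ) (k : ℕ) (s x : ℤ) :
    (RT R k s x).Finite := by
  have := (h_HHD q K1 Cd R k).2.1
  unfold RT
  exact Set.Finite.preimage (sub_left_injective.injOn) this

theorem HH_shift_dep (h_HHD : T_HHD) (q K1 : ℝ) (Cd R : ℤ) (k : ℕ) (s x : ℤ) :
    DepOn (RT R k s x) (fun ω => HH q K1 Cd R k (shiftE (s + lv k, x) ω)) := by
  intro ω ω' h
  apply (h_HHD q K1 Cd R k).1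
  intro z hz
  unfold shiftE
  apply h
  unfold RT
  simp only [Set.mem_ofPred_eq]
  rwa [add_sub_cancel_right]

theorem RT_overlap {R : ℤ} {k : ℕ} (hk : 1 ≤ k) {t0 c : ℤ} {l l' : ℕ} {i i' : ℤ}
    (h : ¬ Disjoint (RT R k (t0 + l * 64 ^ k) (c + 16 ^ k * i))
      (RT R k (t0 + l' * 64 ^ k) (c + 16 ^ k * i'))) : l = l' ∧ |i' - i| < 2 * R := by
  rw [Set.not_disjoint_iff] at h
  obtain ⟨z, h1, h2⟩ := h
  rw [mem_RT hk] at h1 h2
  obtain ⟨a1, a2, a3⟩ := h1
  obtain ⟨b1, b2, b3⟩ := h2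
  have h64 : (0 : ℤ) < 64 ^ k := by positivity
  have h16 : (0 : ℤ) < 16 ^ k := by positivity
  constructor
  · rcases lt_trichotomy l l' with h | h | h
    · exfalso
      have h3 : ((l : ℤ) + 1) * 64 ^ k ≤ l' * 64 ^ k :=
        mul_le_mul_of_nonneg_right (by exact_mod_cast h) h64.le
      linarith
    · exact h
    · exfalso
      have h3 : ((l' : ℤ) + 1) * 64 ^ k ≤ l * 64 ^ k :=
        mul_le_mul_of_nonneg_right (by exact_mod_cast h) h64.le
      linarith
  · have h3 : |i' - i| * 16 ^ k < 2 * R * 16 ^ k := by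
      have : |i' - i| * (16 : ℤ) ^ k = |(z.2 - (c + 16 ^ k * i)) - (z.2 - (c + 16 ^ k * i'))| := by
        rw [← abs_of_pos h16, ← abs_mul, abs_of_pos h16]
        congr 1; ring
      rw [this]
      have := abs_sub (z.2 - (c + 16 ^ k * i)) (z.2 - (c + 16 ^ k * i'))
      linarith
    exact lt_of_mul_lt_mul_right h3 h16.le

theorem RT_sub {R W : ℤ} {k n : ℕ} (hk : 1 ≤ k) {t0 c : ℤ} (hW : 2 * R + 4 ≤ W) {l : ℕ}
    (hl : l < n) {i : ℤ} (hi1 : -(W / 2 + 1) ≤ i) (hi2 : i ≤ W / 2 + 1) :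
    RT R k (t0 + l * 64 ^ k) (c + 16 ^ k * i) ⊆ bx t0 c n k W := by
  intro z hz
  rw [mem_RT hk] at hz
  obtain ⟨a1, a2, a3⟩ := hz
  have h64 : (0 : ℤ) < 64 ^ k := by positivity
  have h16 : (0 : ℤ) < 16 ^ k := by positivity
  refine ⟨?_, ?_, ?_⟩
  · have : (0 : ℤ) ≤ l * 64 ^ k := by positivity
    linarith
  · have h3 : ((l : ℤ) + 1) * 64 ^ k ≤ n * 64 ^ k :=
      mul_le_mul_of_nonneg_right (by exact_mod_cast hl) h64.le
    linarith
  · have h3 : |z.2 - c| ≤ |z.2 - (c + 16 ^ k * i)| + |16 ^ k * i| := by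
      have := abs_add_le (z.2 - (c + 16 ^ k * i)) (16 ^ k * i)
      rwa [show z.2 - (c + 16 ^ k * i) + 16 ^ k * i = z.2 - c by ring] at this
    have h4 : |16 ^ k * i| ≤ (W / 2 + 1) * 16 ^ k := by
      rw [abs_mul, abs_of_pos h16, mul_comm]
      exact mul_le_mul_of_nonneg_right (abs_le.2 ⟨by linarith, hi2⟩) h16.le
    have h5 : (R + (W / 2 + 1)) * 16 ^ k ≤ W * 16 ^ k :=
      mul_le_mul_of_nonneg_right (by omega) h16.le
    linarith

/-- Parity of the positions of a geodesic at the block levels. -/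
theorem par_block {o e : Site} {γ : ℤ → ℤ} (hγ : Conn o e γ) {k : ℕ} (hk : 1 ≤ k) {t0 c : ℤ}
    (hpar : Even (o.1 + o.2 + t0 + c)) {l : ℕ} {i : ℤ} (h1 : o.1 ≤ t0 + l * 64 ^ k)
    (h2 : t0 + l * 64 ^ k ≤ e.1) : Even (γ (t0 + l * 64 ^ k) - (c + 16 ^ k * i)) := by
  have h3 := ((hγ.left h2).reach h1).2
  simp only at h3
  obtain ⟨m, rfl⟩ : ∃ m, k = m + 1 := ⟨k - 1, by omega⟩
  have h4 : Even ((l : ℤ) * 64 ^ (m + 1)) := by
    rw [pow_succ]; exact ⟨l * (64 ^ m * 32), by ring⟩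
  have h5 : Even ((16 : ℤ) ^ (m + 1) * i) := by
    rw [pow_succ]; exact ⟨16 ^ m * 8 * i, by ring⟩
  obtain ⟨a, ha⟩ := h3
  obtain ⟨b, hb⟩ := h4
  obtain ⟨d, hd⟩ := h5
  obtain ⟨f, hf⟩ := hpar
  rw [hb] at ha ⊢
  rw [hd]
  exact ⟨a - b - d + (o.1 + o.2) - f, by omega⟩

/-- Counting: every fine block below a path which stays in the box gives a pair. -/
theorem exists_index {k : ℕ} {W c y : ℤ} (h : 2 * |y - c| ≤ W * 16 ^ k) :
    ∃ i : ℤ, -(W / 2 + 1) ≤ i ∧ i ≤ W / 2 + 1 ∧ c + 16 ^ k * i ≤ y ∧ y ≤ c + 16 ^ k * i + 16 ^ k := by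
  have h16 : (0 : ℤ) < 16 ^ k := by positivity
  have h1 := Int.emod_add_mul_ediv (y - c) (16 ^ k)
  have h2 := Int.emod_nonneg (y - c) h16.ne'
  have h3 := Int.emod_lt_of_pos (y - c) h16
  set i := (y - c) / 16 ^ k with hi
  have h4 := le_abs_self (y - c)
  have h5 := neg_abs_le (y - c)
  have h6 : 2 * i * 16 ^ k ≤ W * 16 ^ k := by nlinarith
  have h7 : 2 * i ≤ W := le_of_mul_le_mul_right h6 h16
  have h8 : -W * 16 ^ k < (2 * i + 2) * 16 ^ k := by nlinarith
  have h9 : -W < 2 * i + 2 := lt_of_mul_lt_mul_right h8 h16.le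
  exact ⟨i, by omega, by omega, by linarith, by linarith⟩

theorem pf_AC (h_ABS : T_ABS) (h_ACD : T_ACD) (h_HHD : T_HHD) (h_FIM : T_FIM) (h_LAM : B_LAM) :
    T_AC := by
  classical
  intro q hq0 hq1 hIH K1 Cd hK1 hCd
  obtain ⟨p, R, k₀, hp, hR, hk₀, hH⟩ := hIH K1 Cd hK1.le hCd
  have hR' : (2 : ℝ) ≤ R := by exact_mod_cast hR
  refine ⟨4 / p * √(8 * R), R, k₀, by positivity, hR, hk₀, ?_⟩
  intro k n W t0 c o e b0 g out hk hn hW hoe ho he hpar hg hgK
  have hk1 : 1 ≤ k := hk₀.trans hk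
  have h64 : (0 : ℤ) < 64 ^ k := by positivity
  have h16 : (0 : ℤ) < 16 ^ k := by positivity
  set B := bx t0 c n k W with hB
  -- the pairs
  set I : Finset (ℕ × ℤ) := Finset.range n ×ˢ Finset.Icc (-(W / 2 + 1)) (W / 2 + 1) with hI
  have memI : ∀ i : ℕ × ℤ, i ∈ I ↔ i.1 < n ∧ -(W / 2 + 1) ≤ i.2 ∧ i.2 ≤ W / 2 + 1 := by
    intro i
    rw [hI, Finset.mem_product, Finset.mem_range, Finset.mem_Icc]
  set RR : ℕ × ℤ → Set Site := fun i => RT R k (t0 + i.1 * 64 ^ k) (c + 16 ^ k * i.2) with hRR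
  set HHs : ℕ × ℤ → Set Env := fun i =>
    {ω | HH q K1 Cd R k (shiftE (t0 + i.1 * 64 ^ k + lv k, c + 16 ^ k * i.2) ω)} with hHHs
  set FF : ℕ × ℤ → Set Env := fun i =>
    {ω | QF q K1 Cd k (t0 + i.1 * 64 ^ k) (c + 16 ^ k * i.2) o e b0 g (splice B ω out)} with hFF
  set Psi : Env → ℝ := fun ω => psi b0 g (T (splice B ω out) o e) with hPsi
  -- the finite set
  have hRRf : ∀ i, (RR i).Finite := fun i => RT_finite h_HHD q K1 Cd R k _ _
  set S : Finset Site := (dom_finite o e).toFinset ∪ I.biUnion (fun i => (hRRf i).toFinset) with hS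
  have hS1 : dom o e ⊆ (S : Set Site) := by
    intro x hx
    rw [hS, Finset.coe_union]
    left
    simpa using hx
  have hS2 : ∀ i ∈ I, RR i ⊆ (S : Set Site) := by
    intro i hi x hx
    rw [hS, Finset.coe_union]
    right
    rw [Finset.mem_coe, Finset.mem_biUnion]
    exact ⟨i, hi, by simpa using hx⟩
  -- levels
  have hlev : ∀ i ∈ I, o.1 ≤ t0 + i.1 * 64 ^ k ∧ t0 + i.1 * 64 ^ k + 64 ^ k ≤ e.1 := by
    intro i hi
    have h1 := ((memI i).1 hi).1
    have h3 : ((i.1 : ℤ) + 1) * 64 ^ k ≤ n * 64 ^ k :=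
      mul_le_mul_of_nonneg_right (by exact_mod_cast h1) h64.le
    have h4 : (0 : ℤ) ≤ i.1 * 64 ^ k := by positivity
    exact ⟨by linarith, by linarith⟩
  have hPdep : DepOn (S : Set Site) Psi := by
    intro ω ω' h
    rw [hPsi]
    simp only
    rw [T_congr (splice_agree (fun x hx => h x (hS1 hx)))]
  have hPmono : Monotone Psi := by
    intro ω ω' h
    exact psi_mono hg (T_mono (fun x _ => splice_mono h x))
  have hHdepR : ∀ i, DepOn (RR i) (fun ω => ω ∈ HHs i) := fun i =>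
    HH_shift_dep h_HHD q K1 Cd R k _ _
  have hFdep : ∀ i ∈ I, DepOn (S : Set Site) (fun ω => ω ∈ FF i) := by
    intro i hi ω ω' h
    have h1 : ∀ x ∈ dom o e, splice B ω out x = splice B ω' out x :=
      splice_agree (fun x hx => h x (hS1 hx))
    obtain ⟨l1, l2⟩ := hlev i hi
    simp only [hFF, Set.mem_ofPred_eq, eq_iff_iff]
    exact ⟨QF_congr h_LAM hoe l1 l2 h1, QF_congr h_LAM hoe l1 l2 (fun x hx => (h1 x hx).symm)⟩
  have hHprob : ∀ i, p ≤ (PE q).real (HHs i) := by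
    intro i
    have h1 : MeasurableSet {ω | HH q K1 Cd R k ω} :=
      h_FIM (tube R k) _ (h_HHD q K1 Cd R k).2.1 (h_HHD q K1 Cd R k).1
    have h2 := (mp_shiftE q (t0 + i.1 * 64 ^ k + lv k, c + 16 ^ k * i.2)).measureReal_preimage
      h1.nullMeasurableSet
    have h3 := hH k hk
    rw [← h2] at h3
    exact h3
  have key := h_ABS q S I HHs FF RR (4 * R).toNat p Psi hp hPdep hPmono
    (fun ω => psi_bd _) (by
      intro i hi
      refine ⟨(hHdepR i).mono (hS2 i hi), hHdepR i, ?_, hFdep i hi, ?_, ?_, hHprob i⟩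
      · intro ω ω' h h1
        exact (h_HHD q K1 Cd R k).2.2 _ _ (fun x => h _) h1
      · intro ω hω
        exact psi_half hg hω.2.1
      · intro ω hω ω' h1 h2
        obtain ⟨f1, f2, f3, f4, f5, f6⟩ := hω
        obtain ⟨l1, l2⟩ := hlev i hi
        obtain ⟨m1, m2, m3⟩ := (memI i).1 hi
        have hsub := RT_sub (R := R) hk1 (t0 := t0) (c := c) hW m1 m2 m3
        obtain ⟨⟨g1, g2⟩, -⟩ := h_LAM (splice B ω out) o e hoe
        have hag : ∀ z : Site, z ∉ RR i → splice B ω' out z = splice B ω out z := by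
          intro z hz
          by_cases hzB : z ∈ B
          · rw [splice_of_mem _ _ hzB, splice_of_mem _ _ hzB, h1 z hz]
          · rw [splice_of_not_mem _ _ hzB, splice_of_not_mem _ _ hzB]
        have hHH : HH q K1 Cd R k
            (shiftE (t0 + i.1 * 64 ^ k + lv k, c + 16 ^ k * i.2) (splice B ω' out)) := by
          have := HH_shift_dep h_HHD q K1 Cd R k (t0 + i.1 * 64 ^ k) (c + 16 ^ k * i.2)
            (splice B ω' out) ω' (fun z hz => splice_of_mem _ _ (hsub hz))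
          simp only at this
          rw [this]
          exact h2
        have hfin := h_ACD q K1 Cd R k (splice B ω out) (splice B ω' out) o e
          (t0 + i.1 * 64 ^ k) (c + 16 ^ k * i.2) (Lam (splice B ω out) o e) hk1 g1 g2 l1 l2
          (par_block g1 hk1 hpar l1 (by omega))
          (abs_le.2 ⟨by linarith, by linarith⟩)
          (by
            have e1 : |Lam (splice B ω out) o e (t0 + i.1 * 64 ^ k) - (c + 16 ^ k * i.2)| ≤
              16 ^ k := abs_le.2 ⟨by linarith, by linarith⟩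
            have e2 := abs_add_le
              (Lam (splice B ω out) o e (t0 + i.1 * 64 ^ k + 64 ^ k) -
                Lam (splice B ω out) o e (t0 + i.1 * 64 ^ k))
              (Lam (splice B ω out) o e (t0 + i.1 * 64 ^ k) - (c + 16 ^ k * i.2))
            rw [sub_add_sub_cancel] at e2
            linarith)
          f6
          (fun z hz => hag z (fun hz' => by
            have := (mem_RT hk1).1 hz'
            rcases hz with hz | hz
            · exact absurd this.1 (not_lt.2 hz)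
            · exact absurd this.2.1 (not_le.2 hz)))
          hHH
        exact psi_one hg (by linarith))
    (by
      intro i hi
      have hsub : I.filter (fun j => ¬ Disjoint (RR i) (RR j)) ⊆
          (Finset.Ioo (i.2 - 2 * R) (i.2 + 2 * R)).image (fun a => (i.1, a)) := by
        intro j hj
        rw [Finset.mem_filter] at hj
        obtain ⟨-, hj2⟩ := hj
        obtain ⟨e1, e2⟩ := RT_overlap hk1 hj2
        rw [abs_lt] at e2
        rw [Finset.mem_image]
        exact ⟨j.2, Finset.mem_Ioo.2 ⟨by linarith, by linarith⟩, by rw [e1]⟩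
      refine (Finset.card_le_card hsub).trans (Finset.card_image_le.trans ?_)
      rw [Int.card_Ioo]
      omega)
  -- counting
  have hcount : ∀ ω ∈ {ω | ACev q K1 Cd k n W t0 c o e b0 g (splice B ω out)},
      (n : ℝ) / 2 ≤ ∑ i ∈ I, (FF i).indicator (fun _ => (1 : ℝ)) ω := by
    intro ω hω
    obtain ⟨a1, a2, a3, a4⟩ := hω
    set J := (Finset.range n).filter (fun l : ℕ => Fine q K1 Cd k (splice B ω out)
      (t0 + l * 64 ^ k) (Lam (splice B ω out) o e)) with hJ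
    have hex : ∀ l ∈ J, ∃ i : ℤ, (l, i) ∈ I ∧ ω ∈ FF (l, i) := by
      intro l hl
      rw [hJ, Finset.mem_filter, Finset.mem_range] at hl
      obtain ⟨hl1, hl2⟩ := hl
      have h3 : (l : ℤ) * 64 ^ k ≤ n * 64 ^ k :=
        mul_le_mul_of_nonneg_right (by exact_mod_cast hl1.le) h64.le
      have h4 : (0 : ℤ) ≤ l * 64 ^ k := by positivity
      obtain ⟨i, i1, i2, i3, i4⟩ := exists_index (a3 (t0 + l * 64 ^ k) (by linarith) (by linarith))
      exact ⟨i, (memI _).2 ⟨hl1, i1, i2⟩, a1, a2, i3, i4, hl2⟩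
    choose! f hf using hex
    have hsub : J.image (fun l => (l, f l)) ⊆ I := by
      intro x hx
      rw [Finset.mem_image] at hx
      obtain ⟨l, hl, rfl⟩ := hx
      exact (hf l hl).1
    have h5 : (J.card : ℝ) ≤ ∑ i ∈ I, (FF i).indicator (fun _ => (1 : ℝ)) ω := by
      calc (J.card : ℝ) = ∑ i ∈ J.image (fun l => (l, f l)), (1 : ℝ) := by
            rw [Finset.sum_const, nsmul_eq_mul, mul_one, Finset.card_image_of_injective]
            intro a b hab
            exact (Prod.mk.inj hab).1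
        _ = ∑ i ∈ J.image (fun l => (l, f l)), (FF i).indicator (fun _ => (1 : ℝ)) ω := by
            refine Finset.sum_congr rfl fun x hx => ?_
            rw [Finset.mem_image] at hx
            obtain ⟨l, hl, rfl⟩ := hx
            rw [Set.indicator_of_mem (hf l hl).2]
        _ ≤ ∑ i ∈ I, (FF i).indicator (fun _ => (1 : ℝ)) ω :=
            Finset.sum_le_sum_of_subset_of_nonneg hsub
              (fun i _ _ => Set.indicator_nonneg (fun _ _ => by norm_num) ω)
    have h6 : (n : ℝ) ≤ 2 * J.card := by exact_mod_cast a4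
    linarith
  have hn0 : (0 : ℝ) < n := by exact_mod_cast hn
  have hfinal := count_bound q I FF
    (fun i hi => h_FIM S (fun ω => ω ∈ FF i) S.finite_toSet (hFdep i hi)) _ ((n : ℝ) / 2)
    (by positivity) hcount
  -- cardinality
  have hW0 : (8 : ℤ) ≤ W := by omega
  have hW0' : (8 : ℝ) ≤ W := by exact_mod_cast hW0
  have hcard : (I.card : ℝ) ≤ 2 * n * W := by
    rw [hI, Finset.card_product, Finset.card_range, Int.card_Icc]
    have h1 : ((W / 2 + 1 + 1 - -(W / 2 + 1)).toNat : ℤ) ≤ 2 * W := by omega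
    have h2 : (((W / 2 + 1 + 1 - -(W / 2 + 1)).toNat : ℕ) : ℝ) ≤ 2 * W := by exact_mod_cast h1
    push_cast at h2 ⊢
    nlinarith
  have hD : (((4 * R).toNat : ℕ) : ℝ) = 4 * R := by
    have : ((4 * R).toNat : ℤ) = 4 * R := Int.toNat_of_nonneg (by omega)
    exact_mod_cast this
  rw [hD] at key
  have h7 : √(4 * R * I.card) ≤ √(8 * R) * √(n * W) := by
    rw [← Real.sqrt_mul (by positivity)]
    apply Real.sqrt_le_sqrt
    nlinarith
  have h8 : √((n : ℝ) * W) = n * √((W : ℝ) / n) := by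
    rw [show (n : ℝ) * W = n ^ 2 * (W / n) by field_simp, Real.sqrt_mul (by positivity),
      Real.sqrt_sq hn0.le]
  calc (PE q).real {ω | ACev q K1 Cd k n W t0 c o e b0 g (splice B ω out)} ≤
        1 / ((n : ℝ) / 2) * ∑ i ∈ I, (PE q).real (FF i) := hfinal
    _ ≤ 1 / ((n : ℝ) / 2) * (2 / p * √(4 * R * I.card)) :=
        mul_le_mul_of_nonneg_left key (by positivity)
    _ ≤ 1 / ((n : ℝ) / 2) * (2 / p * (√(8 * R) * (n * √((W : ℝ) / n)))) := by
        rw [← h8]
        gcongr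
    _ = 4 / p * √(8 * R) * √((W : ℝ) / n) := by field_simp; ring

end Pool.Agent.H29.NT
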