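import Pool.Agent.H84.NT.Targets

/-!
# Near ties (MP_57ddd5_pr): the deterministic step of the anti-concentration estimate
-/

open MeasureTheory ProbabilityTheory
open scoped ENNReal

namespace Pool.Agent.H29.NT

open Pool.Agent.H99.NS Pool.Agent.H22.LPP Pool.Agent.H95.INS Pool.Agent.H84.NT

theorem pf_ACD : T_ACD := by
  intro q K1 Cd R k ω ω1 o e s x g hk hg hw hs hse hev hy hy' hfine hω hH
  have h2 := two_lv hk
  have h64 : (0 : ℤ) < 64 ^ k := by positivity
  have hst : s ≤ s + 64 ^ k := by omega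
  have hco : Conn o (s, g s) g := hg.left (by omega)
  have hce : Conn (s + 64 ^ k, g (s + 64 ^ k)) e g := hg.right (by omega)
  have r1 : Reach o (s, g s) := hco.reach hs
  have r2 : Reach (s, g s) (s + 64 ^ k, g (s + 64 ^ k)) := hg.reach_mid hs hst hse
  have r3 : Reach (s + 64 ^ k, g (s + 64 ^ k)) e := hce.reach hse
  -- decomposition
  have d1 := wt_add ω hs (by omega : s ≤ e.1) g
  have d2 := wt_add ω hst hse g
  have l1 := le_T ω hs hco
  have l2 := le_T ω hse hce
  simp only at l1 l2
  -- unchanged parts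
  have c1 : T ω o (s, g s) = T ω1 o (s, g s) :=
    T_congr_slab fun z _ h => (hω z (Or.inl h)).symm
  have c2 : T ω (s + 64 ^ k, g (s + 64 ^ k)) e = T ω1 (s + 64 ^ k, g (s + 64 ^ k)) e :=
    T_congr_slab fun z h _ => (hω z (Or.inr h)).symm
  -- the highway
  have eu : ((-lv k, g s - x) : Site) + (s + lv k, x) = (s, g s) := by
    ext <;> simp
  have ev : ((lv k, g (s + 64 ^ k) - x) : Site) + (s + lv k, x) =
      (s + 64 ^ k, g (s + 64 ^ k)) := by
    ext
    · simp only [Prod.fst_add]; omega
    · simp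
  have hr : Reach (-lv k, g s - x) (lv k, g (s + 64 ^ k) - x) := by
    rw [← reach_shift (s + lv k, x), eu, ev]; exact r2
  obtain ⟨g', hg', -, hg''⟩ := hH (g s - x) (g (s + 64 ^ k) - x) hev hy hy' hr
  have l3 := le_T (shiftE (s + lv k, x) ω1) (reach_le hr) hg'
  rw [T_shift, eu, ev] at l3
  simp only at l3
  have hpar : par q (-lv k, g s - x) (lv k, g (s + 64 ^ k) - x) =
      par q (s, g s) (s + 64 ^ k, g (s + 64 ^ k)) := by
    unfold par
    simp only
    rw [show lv k - -lv k = s + 64 ^ k - s by omega,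
      show g (s + 64 ^ k) - x - (g s - x) = g (s + 64 ^ k) - g s by ring]
  rw [hpar] at hg''
  have s1 := T_superadd ω1 r1 r2
  have s2 := T_superadd ω1 (reach_trans r1 r2) r3
  linarith

end Pool.Agent.H29.NT
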